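import Pool.Agent.helper15.DH.Spec
import Pool.Agent.helper59.DM.DV

/-! Module DKS. -/

set_option autoImplicit false

open Complex MeasureTheory

namespace Pool.Agent.DH

open Pool.Agent.helper84.DM Pool.Agent.helper78.ED

/-- the dyadic block -/
noncomputable def DKS_B (K i : ℕ) : Finset ℕ := (Finset.Icc 1 K).filter (fun n => Nat.log 2 n = i)

theorem DKS_mem (K i n : ℕ) (h : n ∈ DKS_B K i) : 1 ≤ n ∧ 2 ^ i ≤ n ∧ n < 2 * 2 ^ i := by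
  unfold DKS_B at h
  rw [Finset.mem_filter, Finset.mem_Icc] at h
  obtain ⟨⟨h1, h2⟩, h3⟩ := h
  have h4 : n ≠ 0 := by omega
  refine ⟨h1, ?_, ?_⟩
  · rw [← h3]
    exact Nat.pow_log_le_self 2 h4
  · have := Nat.lt_pow_succ_log_self (by norm_num : 1 < 2) n
    rw [h3, pow_succ] at this
    omega

theorem DKS_term (n : ℕ) (hn : 1 ≤ n) (u : ℝ) :
    (n : ℂ) ^ (-((1 / 2 : ℂ) + u * I)) =
      ((((n : ℝ) ^ (-(1 / 2) : ℝ) : ℝ)) : ℂ) * (n : ℂ) ^ (-((u : ℂ) * I)) := by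
  have hn0 : (n : ℂ) ≠ 0 := by
    have : n ≠ 0 := by omega
    exact_mod_cast this
  rw [neg_add, Complex.cpow_add _ _ hn0]
  congr 1
  rw [Complex.ofReal_cpow (Nat.cast_nonneg n)]
  simp

theorem DKS_split (K : ℕ) (u : ℝ) :
    DK K u ^ 2 ≤ ((Nat.log 2 K + 1 : ℕ) : ℝ) * ∑ i ∈ Finset.range (Nat.log 2 K + 1),
      ‖∑ n ∈ DKS_B K i, ((((n : ℝ) ^ (-(1 / 2) : ℝ) : ℝ)) : ℂ) *
        (n : ℂ) ^ (-((u : ℂ) * I))‖ ^ 2 := by
  have h1 : ∑ n ∈ Finset.Icc 1 K, (n : ℂ) ^ (-((1 / 2 : ℂ) + u * I)) =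
      ∑ i ∈ Finset.range (Nat.log 2 K + 1), ∑ n ∈ DKS_B K i,
        ((((n : ℝ) ^ (-(1 / 2) : ℝ) : ℝ)) : ℂ) * (n : ℂ) ^ (-((u : ℂ) * I)) := by
    unfold DKS_B
    rw [← Finset.sum_fiberwise_of_maps_to (t := Finset.range (Nat.log 2 K + 1))
      (g := fun n => Nat.log 2 n)]
    · refine Finset.sum_congr rfl fun i _ => Finset.sum_congr rfl fun n hn => ?_
      rw [Finset.mem_filter, Finset.mem_Icc] at hn
      exact DKS_term n hn.1.1 u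
    · intro n hn
      rw [Finset.mem_Icc] at hn
      rw [Finset.mem_range]
      exact Nat.lt_succ_of_le (Nat.log_mono_right hn.2)
  unfold DK
  rw [h1]
  have h2 := norm_sum_le (Finset.range (Nat.log 2 K + 1)) (fun i => ∑ n ∈ DKS_B K i,
        ((((n : ℝ) ^ (-(1 / 2) : ℝ) : ℝ)) : ℂ) * (n : ℂ) ^ (-((u : ℂ) * I)))
  have h3 := sq_sum_le_card_mul_sum_sq (s := Finset.range (Nat.log 2 K + 1))
    (f := fun i => ‖∑ n ∈ DKS_B K i,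
        ((((n : ℝ) ^ (-(1 / 2) : ℝ) : ℝ)) : ℂ) * (n : ℂ) ^ (-((u : ℂ) * I))‖)
  rw [Finset.card_range] at h3
  exact (pow_le_pow_left₀ (norm_nonneg _) h2 2).trans h3

theorem DKS_QQ (Z : Finset ℂ) (L : ℕ) : 0 ≤ QQ Z L := by
  unfold QQ
  exact Finset.sum_nonneg fun x _ => Finset.sum_nonneg fun y _ => sq_nonneg _

theorem DKS_block (hS : SHV_stmt) (hM : MONO_stmt) (Z : Finset ℂ) (K L i : ℕ) (D v : ℝ)
    (hKL : K ≤ L) (hi : 2 ^ i ≤ K) (hD : ∀ k ∈ IL L, d k ≤ D) :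
    (L : ℝ) * ∑ ρ ∈ Z, ∑ ρ' ∈ Z, ‖∑ n ∈ DKS_B K i, ((((n : ℝ) ^ (-(1 / 2) : ℝ) : ℝ)) : ℂ) *
        (n : ℂ) ^ (-(((ρ.im - ρ'.im + v : ℝ) : ℂ) * I))‖ ^ 2 ≤ D * QQ Z L := by
  have h0 : (0 : ℕ) ∉ DKS_B K i := by
    intro h
    have := (DKS_mem K i 0 h).1
    omega
  have h1 := hS Z (DKS_B K i) (fun n => (n : ℝ) ^ (-(1 / 2) : ℝ)) v h0
    (fun n => Real.rpow_nonneg (Nat.cast_nonneg n) _)
  have h2 := hM Z (2 ^ i) L (DKS_B K i) D (Nat.one_le_two_pow) (hi.trans hKL)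
    (fun n hn => (DKS_mem K i n hn).2) hD
  have hpos : (0 : ℝ) < 2 ^ i := by positivity
  have h3 : ∑ n ∈ DKS_B K i, ∑ m ∈ DKS_B K i, (n : ℝ) ^ (-(1 / 2) : ℝ) * (m : ℝ) ^ (-(1 / 2) : ℝ) *
      ‖RR Z (fun _ => 1) n m‖ ^ 2 ≤
      (1 / 2 ^ i) * ∑ n ∈ DKS_B K i, ∑ m ∈ DKS_B K i, ‖RR Z (fun _ => 1) n m‖ ^ 2 := by
    rw [Finset.mul_sum]
    refine Finset.sum_le_sum fun n hn => ?_
    rw [Finset.mul_sum]
    refine Finset.sum_le_sum fun m hm => ?_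
    refine mul_le_mul_of_nonneg_right ?_ (sq_nonneg _)
    have e : ∀ k ∈ DKS_B K i, (k : ℝ) ^ (-(1 / 2) : ℝ) ≤ ((2 : ℝ) ^ i) ^ (-(1 / 2) : ℝ) := by
      intro k hk
      refine Real.rpow_le_rpow_of_nonpos hpos ?_ (by norm_num)
      exact_mod_cast (DKS_mem K i k hk).2.1
    calc (n : ℝ) ^ (-(1 / 2) : ℝ) * (m : ℝ) ^ (-(1 / 2) : ℝ)
        ≤ ((2 : ℝ) ^ i) ^ (-(1 / 2) : ℝ) * ((2 : ℝ) ^ i) ^ (-(1 / 2) : ℝ) :=
          mul_le_mul (e n hn) (e m hm) (Real.rpow_nonneg (Nat.cast_nonneg m) _)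
            (Real.rpow_nonneg hpos.le _)
      _ = 1 / 2 ^ i := by
          rw [← Real.rpow_add hpos]
          norm_num
          rw [Real.rpow_neg_one]
  have hL : (0 : ℝ) ≤ L := Nat.cast_nonneg L
  calc (L : ℝ) * ∑ ρ ∈ Z, ∑ ρ' ∈ Z, ‖∑ n ∈ DKS_B K i, ((((n : ℝ) ^ (-(1 / 2) : ℝ) : ℝ)) : ℂ) *
        (n : ℂ) ^ (-(((ρ.im - ρ'.im + v : ℝ) : ℂ) * I))‖ ^ 2
      ≤ (L : ℝ) * ((1 / 2 ^ i) * ∑ n ∈ DKS_B K i, ∑ m ∈ DKS_B K i,
          ‖RR Z (fun _ => 1) n m‖ ^ 2) := mul_le_mul_of_nonneg_left (h1.trans h3) hL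
    _ = (1 / 2 ^ i) * ((L : ℝ) * ∑ n ∈ DKS_B K i, ∑ m ∈ DKS_B K i,
          ‖RR Z (fun _ => 1) n m‖ ^ 2) := by ring
    _ ≤ (1 / 2 ^ i) * (((2 ^ i : ℕ) : ℝ) * D * QQ Z L) :=
        mul_le_mul_of_nonneg_left h2 (by positivity)
    _ = D * QQ Z L := by
        push_cast
        field_simp

theorem DKS (hS : SHV_stmt) (hM : MONO_stmt) : DKS_stmt := by
  intro ε hε
  obtain ⟨C₁, hC₁, hdiv⟩ := divisor_bound (ε / 12) (by positivity)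
  have hlog2 : 0 < Real.log 2 := Real.log_pos (by norm_num)
  set C₂ : ℝ := 1 + 6 / Real.log 2 / (ε / 4) with hC₂
  have hC₂0 : 0 < C₂ := by positivity
  refine ⟨C₂ ^ 2 * (C₁ * (8 : ℝ) ^ (ε / 12)), by positivity, ?_⟩
  intro T hT Z K L hK hKL hL v
  have hT0 : 0 < T := by linarith
  -- the divisor bound
  set D : ℝ := C₁ * (8 : ℝ) ^ (ε / 12) * T ^ (ε / 2) with hD
  have hD0 : 0 ≤ D := by positivity
  have hDk : ∀ k ∈ IL L, d k ≤ D := by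
    intro k hk
    unfold IL at hk
    rw [Finset.mem_Ioc] at hk
    have hk1 : 1 ≤ k := by omega
    refine (hdiv k hk1).trans ?_
    rw [hD, mul_assoc]
    refine mul_le_mul_of_nonneg_left ?_ hC₁.le
    have h1 : (k : ℝ) ≤ 8 * T ^ (6 : ℕ) := by
      have : (k : ℝ) ≤ 8 * L := by exact_mod_cast hk.2
      linarith
    calc (k : ℝ) ^ (ε / 12) ≤ (8 * T ^ (6 : ℕ)) ^ (ε / 12) :=
          Real.rpow_le_rpow (Nat.cast_nonneg k) h1 (by positivity)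
      _ = (8 : ℝ) ^ (ε / 12) * T ^ (ε / 2) := by
          rw [Real.mul_rpow (by norm_num) (by positivity), ← Real.rpow_natCast T 6,
            ← Real.rpow_mul hT0.le]
          congr 2
          push_cast
          ring
  -- the number of blocks
  set J : ℕ := Nat.log 2 K + 1 with hJ
  have hJb : (J : ℝ) ≤ C₂ * T ^ (ε / 4) := by
    have hT1 : (1 : ℝ) ≤ T ^ (ε / 4) := Real.one_le_rpow hT (by positivity)
    have hK0 : (0 : ℝ) < K := by exact_mod_cast hK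
    have h1 : (Nat.log 2 K : ℝ) ≤ Real.log K / Real.log 2 := by
      rw [le_div_iff₀ hlog2]
      have h2 : (2 : ℝ) ^ Nat.log 2 K ≤ K := by
        exact_mod_cast Nat.pow_log_le_self 2 (by omega)
      have h3 := Real.log_le_log (by positivity) h2
      rwa [Real.log_pow] at h3
    have h4 : Real.log K ≤ 6 * Real.log T := by
      have h5 : (K : ℝ) ≤ T ^ (6 : ℕ) := by
        have : (K : ℝ) ≤ L := by exact_mod_cast hKL
        linarith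
      have h6 := Real.log_le_log hK0 h5
      rw [Real.log_pow] at h6
      exact_mod_cast h6
    have h7 : Real.log T ≤ T ^ (ε / 4) / (ε / 4) := Real.log_le_rpow_div hT0.le (by positivity)
    have h8 : (Nat.log 2 K : ℝ) ≤ 6 / Real.log 2 / (ε / 4) * T ^ (ε / 4) := by
      calc (Nat.log 2 K : ℝ) ≤ Real.log K / Real.log 2 := h1
        _ ≤ (6 * (T ^ (ε / 4) / (ε / 4))) / Real.log 2 :=
            div_le_div_of_nonneg_right (h4.trans (by linarith)) hlog2.le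
        _ = 6 / Real.log 2 / (ε / 4) * T ^ (ε / 4) := by
            field_simp
    rw [hJ, hC₂]
    push_cast
    nlinarith
  have hQ := DKS_QQ Z L
  have hL0 : (0 : ℝ) ≤ L := Nat.cast_nonneg L
  have hJ0 : (0 : ℝ) ≤ J := Nat.cast_nonneg J
  calc (L : ℝ) * ∑ ρ ∈ Z, ∑ ρ' ∈ Z, DK K (ρ.im - ρ'.im + v) ^ 2
      ≤ (L : ℝ) * ∑ ρ ∈ Z, ∑ ρ' ∈ Z, ((J : ℕ) : ℝ) * ∑ i ∈ Finset.range J,
        ‖∑ n ∈ DKS_B K i, ((((n : ℝ) ^ (-(1 / 2) : ℝ) : ℝ)) : ℂ) *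
        (n : ℂ) ^ (-(((ρ.im - ρ'.im + v : ℝ) : ℂ) * I))‖ ^ 2 := by
        refine mul_le_mul_of_nonneg_left ?_ hL0
        exact Finset.sum_le_sum fun ρ _ => Finset.sum_le_sum fun ρ' _ =>
          DKS_split K (ρ.im - ρ'.im + v)
    _ = (J : ℝ) * ∑ i ∈ Finset.range J, ((L : ℝ) * ∑ ρ ∈ Z, ∑ ρ' ∈ Z,
        ‖∑ n ∈ DKS_B K i, ((((n : ℝ) ^ (-(1 / 2) : ℝ) : ℝ)) : ℂ) *
        (n : ℂ) ^ (-(((ρ.im - ρ'.im + v : ℝ) : ℂ) * I))‖ ^ 2) := by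
        rw [← Finset.mul_sum]
        have e : ∑ ρ ∈ Z, ∑ ρ' ∈ Z, ((J : ℕ) : ℝ) * ∑ i ∈ Finset.range J,
            ‖∑ n ∈ DKS_B K i, ((((n : ℝ) ^ (-(1 / 2) : ℝ) : ℝ)) : ℂ) *
            (n : ℂ) ^ (-(((ρ.im - ρ'.im + v : ℝ) : ℂ) * I))‖ ^ 2 =
            (J : ℝ) * ∑ i ∈ Finset.range J, ∑ ρ ∈ Z, ∑ ρ' ∈ Z,
            ‖∑ n ∈ DKS_B K i, ((((n : ℝ) ^ (-(1 / 2) : ℝ) : ℝ)) : ℂ) *
            (n : ℂ) ^ (-(((ρ.im - ρ'.im + v : ℝ) : ℂ) * I))‖ ^ 2 := by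
          simp only [← Finset.mul_sum]
          congr 1
          have e2 : ∀ ρ ∈ Z, ∑ ρ' ∈ Z, ∑ i ∈ Finset.range J,
              ‖∑ n ∈ DKS_B K i, ((((n : ℝ) ^ (-(1 / 2) : ℝ) : ℝ)) : ℂ) *
              (n : ℂ) ^ (-(((ρ.im - ρ'.im + v : ℝ) : ℂ) * I))‖ ^ 2 =
              ∑ i ∈ Finset.range J, ∑ ρ' ∈ Z,
              ‖∑ n ∈ DKS_B K i, ((((n : ℝ) ^ (-(1 / 2) : ℝ) : ℝ)) : ℂ) *
              (n : ℂ) ^ (-(((ρ.im - ρ'.im + v : ℝ) : ℂ) * I))‖ ^ 2 := fun ρ _ => Finset.sum_comm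
          rw [Finset.sum_congr rfl e2, Finset.sum_comm]
        rw [e]
        ring
    _ ≤ (J : ℝ) * ∑ i ∈ Finset.range J, D * QQ Z L := by
        refine mul_le_mul_of_nonneg_left ?_ hJ0
        refine Finset.sum_le_sum fun i hi => ?_
        rw [Finset.mem_range] at hi
        refine DKS_block hS hM Z K L i D v hKL ?_ hDk
        calc 2 ^ i ≤ 2 ^ Nat.log 2 K := Nat.pow_le_pow_right (by norm_num) (by omega)
          _ ≤ K := Nat.pow_log_le_self 2 (by omega)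
    _ = (J : ℝ) ^ 2 * (D * QQ Z L) := by
        rw [Finset.sum_const, Finset.card_range, nsmul_eq_mul]
        ring
    _ ≤ (C₂ * T ^ (ε / 4)) ^ 2 * (D * QQ Z L) :=
        mul_le_mul_of_nonneg_right (pow_le_pow_left₀ hJ0 hJb 2) (mul_nonneg hD0 hQ)
    _ = C₂ ^ 2 * (C₁ * (8 : ℝ) ^ (ε / 12)) * T ^ ε * QQ Z L := by
        have h9 : T ^ ε = (T ^ (ε / 4)) ^ 2 * T ^ (ε / 2) := by
          rw [← Real.rpow_natCast (T ^ (ε / 4)) 2, ← Real.rpow_mul hT0.le, ← Real.rpow_add hT0]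
          congr 1
          push_cast
          ring
        rw [hD, h9]
        ring

end Pool.Agent.DH
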