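import Pool.Agent.helper57.DH.SpecL
import Pool.Agent.helper13.D2.SZC

/-! Project dh:, part L, LCV: change of variables. -/

set_option autoImplicit false

open Filter Topology MeasureTheory
open scoped commutatorElement

namespace Pool.Agent.helper90.DH

open Pool.Agent.helper64.D2

theorem LCV_inv1 (c : DD) (z : ℝ) : deriv (ev c) (ev c⁻¹ z) * deriv (ev c⁻¹) z = 1 := by
  have h1 := SZC_chain c c⁻¹ z
  have hid : ev (c * c⁻¹) = fun y : ℝ => y := by
    funext y
    rw [mul_inv_cancel]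
    rfl
  rw [hid] at h1
  have h2 : deriv (fun y : ℝ => y) z = 1 := (hasDerivAt_id' z).deriv
  rw [h2] at h1
  exact h1.symm

theorem LCV_inv2 (c : DD) (z : ℝ) : d2 (ev c) (ev c⁻¹ z) * deriv (ev c⁻¹) z ^ 2 + deriv (ev c) (ev c⁻¹ z) * d2 (ev c⁻¹) z = 0 := by
  have h1 := SZC_chain2 c c⁻¹ z
  have hid : ev (c * c⁻¹) = fun y : ℝ => y := by
    funext y
    rw [mul_inv_cancel]
    rfl
  rw [hid] at h1
  have h2 : d2 (fun y : ℝ => y) z = 0 := by
    unfold d2
    have h3 : deriv (fun y : ℝ => y) = fun _ => 1 := by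
      funext y
      exact (hasDerivAt_id' y).deriv
    rw [h3, deriv_const]
  rw [h2] at h1
  exact h1.symm

theorem LCV_der (c : DD) (hc : Sz c (1 / 50)) (x : ℝ) : 49 / 50 ≤ deriv (ev c) x ∧ deriv (ev c) x ≤ 51 / 50 := by
  have h := abs_le.1 (SZC_der c (1 / 50) hc x)
  constructor <;> linarith [h.1, h.2]

theorem LCV_derinv (c : DD) (hc : Sz c (1 / 50)) (z : ℝ) : 49 / 50 ≤ deriv (ev c⁻¹) z ∧ deriv (ev c⁻¹) z ≤ 50 / 49 := by
  obtain ⟨h1, h2⟩ := LCV_der c hc (ev c⁻¹ z)
  have h3 := LCV_inv1 c z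
  set D := deriv (ev c) (ev c⁻¹ z)
  set J := deriv (ev c⁻¹) z
  have hD : 0 < D := by linarith
  have hJ : J = 1 / D := by
    rw [eq_div_iff hD.ne']
    linarith
  rw [hJ]
  constructor
  · rw [le_div_iff₀ hD]
    linarith
  · rw [div_le_iff₀ hD]
    linarith

theorem LCV_cv (c : DD) (F : ℝ → ℝ) (hc : Sz c (1 / 50)) : ∫ x, F (ev c x) = ∫ z, F z * deriv (ev c⁻¹) z := by
  have hinj : Set.InjOn (ev c⁻¹) Set.univ := by
    intro x _ y _ hxy
    have h1 := congrArg (ev c) hxy
    rwa [ev_inv', ev_inv'] at h1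
  have h1 := integral_image_eq_integral_abs_deriv_smul (s := Set.univ) (f := ev c⁻¹) (f' := deriv (ev c⁻¹)) MeasurableSet.univ
    (fun x _ => ((SZC_d1 c⁻¹) x).hasDerivAt.hasDerivWithinAt) hinj (fun x => F (ev c x))
  have himg : ev c⁻¹ '' Set.univ = Set.univ := by
    rw [Set.image_univ, Set.range_eq_univ]
    intro x
    exact ⟨ev c x, ev_inv c x⟩
  rw [himg, Measure.restrict_univ] at h1
  rw [h1]
  congr 1
  funext z
  rw [ev_inv', smul_eq_mul, abs_of_pos (by linarith [(LCV_derinv c hc z).1]), mul_comm]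

theorem LCV (hLBM : LBM_stmt) (hLCS : LCS_stmt) : LCV_stmt := by
  have hsz : ∀ c : DD, Sz c (1 / 100) → Sz c (1 / 50) := fun c h x => (h x).trans (by norm_num)
  have hcomp : ∀ (c : DD) (f : ℝ → ℝ), Sz c (1 / 50) → BM f → nsq (fun x => f (ev c x)) ≤ 2 * nsq f ∧ ∫ x, |f (ev c x)| ≤ 2 * ∫ x, |f x| := by
    intro c f hc hf
    have hff : Integrable (fun x => f x ^ 2) := by
      have h1 := ((hLBM.1 f f hf hf).2.2)
      have h2 := ((hLBM.2.1 1 _ h1).2.2)
      have h3 : (fun x => f x ^ 2) = fun x => f x * f x := by funext x; ring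
      rw [h3]
      exact h2
    have hfa : Integrable (fun x => |f x|) := (hLBM.2.1 1 _ ((hLBM.2.1 1 f hf).2.1)).2.2
    constructor
    · unfold nsq
      rw [LCV_cv c (fun z => f z ^ 2) hc, ← integral_const_mul]
      apply integral_mono_of_nonneg
      · exact Eventually.of_forall fun z => mul_nonneg (sq_nonneg _) (by linarith [(LCV_derinv c hc z).1])
      · exact hff.const_mul 2
      · exact Eventually.of_forall fun z => by
          show f z ^ 2 * deriv (ev c⁻¹) z ≤ 2 * f z ^ 2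
          have h1 := (LCV_derinv c hc z).2
          nlinarith [sq_nonneg (f z)]
    · rw [LCV_cv c (fun z => |f z|) hc, ← integral_const_mul]
      apply integral_mono_of_nonneg
      · exact Eventually.of_forall fun z => mul_nonneg (abs_nonneg _) (by linarith [(LCV_derinv c hc z).1])
      · exact hfa.const_mul 2
      · exact Eventually.of_forall fun z => by
          show |f z| * deriv (ev c⁻¹) z ≤ 2 * |f z|
          have h1 := (LCV_derinv c hc z).2
          nlinarith [abs_nonneg (f z)]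
  refine ⟨?_, ?_, ?_, fun c F hc => LCV_cv c F hc, hcomp, ?_⟩
  · intro c hc x y hxy
    exact ⟨mul_sub_le_image_sub_of_le_deriv (SZC_d1 c) (fun z => (LCV_der c hc z).1) hxy,
      image_sub_le_mul_sub_of_deriv_le (SZC_d1 c) (fun z => (LCV_der c hc z).2) hxy⟩
  · intro c hc
    have h1 := SZC_inv c (1 / 100) hc (by norm_num)
    intro x
    have h2 := h1 x
    linarith
  · intro c hc
    refine ⟨fun z => ⟨(LCV_derinv c hc z).1, (LCV_derinv c hc z).2.trans (by norm_num)⟩, ?_⟩
    have hb : ∀ z, ‖deriv (deriv (ev c⁻¹)) z‖ ≤ 1 / 40 := by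
      intro z
      rw [Real.norm_eq_abs]
      show |d2 (ev c⁻¹) z| ≤ 1 / 40
      have h1 := LCV_inv2 c z
      obtain ⟨hD1, hD2⟩ := LCV_der c hc (ev c⁻¹ z)
      obtain ⟨hJ1, hJ2⟩ := LCV_derinv c hc z
      have h2 := hc (ev c⁻¹ z)
      set D := deriv (ev c) (ev c⁻¹ z)
      set J := deriv (ev c⁻¹) z
      set P := d2 (ev c) (ev c⁻¹ z)
      set X := d2 (ev c⁻¹) z
      have hD : 0 < D := by linarith
      have h3 : X = -(P * J ^ 2) / D := by
        rw [eq_div_iff hD.ne']
        linarith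
      rw [h3, abs_div, abs_neg, abs_of_pos hD, div_le_iff₀ hD, abs_mul, abs_of_nonneg (sq_nonneg J)]
      have h4 : J ^ 2 ≤ (50 / 49) ^ 2 := by
        apply pow_le_pow_left₀ (by linarith) hJ2
      calc |P| * J ^ 2 ≤ 1 / 50 * (50 / 49) ^ 2 := mul_le_mul h2 h4 (sq_nonneg _) (by norm_num)
        _ ≤ 1 / 40 * (49 / 50) := by norm_num
        _ ≤ 1 / 40 * D := by linarith
    intro z z'
    exact Convex.norm_image_sub_le_of_norm_deriv_le (f := deriv (ev c⁻¹)) (C := 1 / 40) (s := Set.univ) (x := z') (y := z)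
      (fun w _ => (SZC_d2 c⁻¹) w) (fun w _ => hb w) convex_univ trivial trivial
  · intro q c f hc hf
    have hn0 : 0 ≤ nsq f := integral_nonneg fun x => sq_nonneg _
    rcases Nat.eq_zero_or_pos q with hq | hq
    · have h1 : Mop q c f = fun _ => 0 := by
        funext x
        unfold Mop
        rw [hq]
        simp
      rw [h1]
      have h2 : nsq (fun _ : ℝ => (0 : ℝ)) = 0 := by
        unfold nsq
        simp
      rw [h2]
      positivity
    · have hqp : (0 : ℝ) < q := by exact_mod_cast hq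
      have h1 : Mop q c f = fun x => (1 / q : ℝ) * ∑ i ∈ Finset.range q, (fun i x => f (ev (c i) x)) i x := by
        funext x
        unfold Mop
        rw [div_eq_inv_mul, one_div]
      rw [h1, hLCS.2.2.2.2]
      have h2 := hLCS.2.2.1 (Finset.range q) (fun i x => f (ev (c i) x)) (fun i _ => hLBM.2.2.2.2.1 (c i) f hf)
      have h3 : ∑ i ∈ Finset.range q, √(nsq ((fun i x => f (ev (c i) x)) i)) ≤ q * √(2 * nsq f) := by
        calc _ ≤ ∑ i ∈ Finset.range q, √(2 * nsq f) := by
              apply Finset.sum_le_sum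
              intro i hi
              apply Real.sqrt_le_sqrt
              exact (hcomp (c i) f (hsz _ (hc i (Finset.mem_range.1 hi))) hf).1
          _ = q * √(2 * nsq f) := by rw [Finset.sum_const, Finset.card_range, nsmul_eq_mul]
      have h4 := h2.trans h3
      have h5 : nsq (fun x => ∑ i ∈ Finset.range q, (fun i x => f (ev (c i) x)) i x) ≤ q ^ 2 * (2 * nsq f) := by
        have h6 : (0 : ℝ) ≤ nsq (fun x => ∑ i ∈ Finset.range q, (fun i x => f (ev (c i) x)) i x) := integral_nonneg fun x => sq_nonneg _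
        calc _ = √(nsq (fun x => ∑ i ∈ Finset.range q, (fun i x => f (ev (c i) x)) i x)) ^ 2 := (Real.sq_sqrt h6).symm
          _ ≤ (q * √(2 * nsq f)) ^ 2 := pow_le_pow_left₀ (Real.sqrt_nonneg _) h4 2
          _ = q ^ 2 * (2 * nsq f) := by rw [mul_pow, Real.sq_sqrt (by positivity)]
      calc _ ≤ (1 / q : ℝ) ^ 2 * (q ^ 2 * (2 * nsq f)) := mul_le_mul_of_nonneg_left h5 (sq_nonneg _)
        _ = 2 * nsq f := by field_simp

end Pool.Agent.helper90.DH
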