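import Pool.Agent.helper57.DH.SpecL

/-! Project dh:, part L, LIP: almost orthogonality of the levels. -/

set_option autoImplicit false

open Filter Topology MeasureTheory
open scoped commutatorElement

namespace Pool.Agent.helper90.DH

open Pool.Agent.helper64.D2

theorem LIP_cs (hLCS : LCS_stmt) (f g : ℝ → ℝ) (hf : BM f) (hg : BM g) : |∫ x, f x * g x| ≤ √(nsq f) * √(nsq g) := by
  have h1 := hLCS.1 f g hf hg
  have hf0 : 0 ≤ nsq f := integral_nonneg fun x => sq_nonneg _
  rw [← Real.sqrt_mul hf0]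
  exact Real.abs_le_sqrt h1

theorem LIP_sq (A K a M P : ℝ) (_hA : 0 ≤ A) (hK : 1 ≤ K) (ha : 0 ≤ a) (hM : 0 < M) (hP : 0 < P) (hMP : M ^ 2 ≤ 2 * P) (h : A ≤ K / P * a ^ 2) :
    √A ≤ 2 * K * a / M := by
  apply Real.sqrt_le_iff.2
  refine ⟨by positivity, h.trans ?_⟩
  have h1 : (2 * K * a / M) ^ 2 = 4 * K ^ 2 / M ^ 2 * a ^ 2 := by
    field_simp
    ring
  rw [h1]
  apply mul_le_mul_of_nonneg_right _ (sq_nonneg a)
  rw [div_le_div_iff₀ hP (by positivity)]
  calc K * M ^ 2 ≤ K * (2 * P) := by gcongr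
    _ = 2 * K * P := by ring
    _ ≤ 4 * K ^ 2 * P := by
        apply mul_le_mul_of_nonneg_right _ hP.le
        nlinarith

theorem LIP (hLOA : LOA_stmt) (hLOB : LOB_stmt) (hLBM : LBM_stmt) (hLCS : LCS_stmt) (hLEP : LEP_stmt) (hLCV : LCV_stmt) : LIP_stmt := by
  obtain ⟨K, hK, hA⟩ := hLOA
  obtain ⟨K', hK', hB⟩ := hLOB
  have hsz : ∀ c : DD, Sz c (1 / 100) → Sz c (1 / 50) := fun c h x => (h x).trans (by norm_num)
  refine ⟨4 * (K + K'), by linarith, ?_⟩
  intro q c f g s r hc hf hg hEf hg1 hrs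
  have hnf : 0 ≤ nsq f := integral_nonneg fun x => sq_nonneg _
  have hng : 0 ≤ nsq g := integral_nonneg fun x => sq_nonneg _
  set a := √(nsq f) with ha
  set b := √(nsq g) with hb
  have ha0 : 0 ≤ a := Real.sqrt_nonneg _
  have hb0 : 0 ≤ b := Real.sqrt_nonneg _
  have ha2 : a ^ 2 = nsq f := Real.sq_sqrt hnf
  have hb2 : b ^ 2 = nsq g := Real.sq_sqrt hng
  set M : ℝ := 2 ^ ((s - r) / 4) with hM
  have hMpos : 0 < M := by positivity
  have h2 : ∀ (d : DD) (h : ℝ → ℝ), Sz d (1 / 100) → BM h → √(nsq (fun x => h (ev d x))) ≤ 2 * √(nsq h) := by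
    intro d h hd hh
    have h1 := (hLCV.2.2.2.2.1 d h (hsz d hd) hh).1
    have hnh : 0 ≤ nsq h := integral_nonneg fun x => sq_nonneg _
    calc √(nsq (fun x => h (ev d x))) ≤ √(2 ^ 2 * nsq h) := Real.sqrt_le_sqrt (by linarith)
      _ = 2 * √(nsq h) := by rw [Real.sqrt_mul (by norm_num), Real.sqrt_sq (by norm_num)]
  have pair : ∀ d d' : DD, Sz d (1 / 100) → Sz d' (1 / 100) → |∫ x, f (ev d x) * g (ev d' x)| ≤ 4 * (K + K') / M * (a * b) := by
    intro d d' hd hd'
    have hfd := hLBM.2.2.2.2.1 d f hf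
    have hgd := hLBM.2.2.2.2.1 d' g hg
    have hfn := h2 d f hd hf
    have hgn := h2 d' g hd' hg
    rcases Nat.eq_zero_or_pos (s - r) with hn | hn
    · have h3 := LIP_cs hLCS _ _ hfd hgd
      have hM1 : M = 1 := by rw [hM, hn]; norm_num
      rw [hM1, div_one]
      calc _ ≤ √(nsq (fun x => f (ev d x))) * √(nsq (fun x => g (ev d' x))) := h3
        _ ≤ (2 * a) * (2 * b) := mul_le_mul hfn hgn (Real.sqrt_nonneg _) (by positivity)
        _ ≤ 4 * (K + K') * (a * b) := by nlinarith [mul_nonneg ha0 hb0]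
    · set p := r + 1 + (s - r - 1) / 2 with hp
      have hps : p ≤ s := by omega
      have hrp : r + 1 ≤ p := by omega
      have hEg := (hLBM.2.2.2.1 p _ hgd).1
      have hEf' := (hLBM.2.2.2.1 p _ hfd).1
      have hdiff := (hLBM.1 _ _ hgd hEg).2.1
      -- split
      have hsplit : ∫ x, f (ev d x) * g (ev d' x) = (∫ x, f (ev d x) * Es p (fun z => g (ev d' z)) x) +
          ∫ x, f (ev d x) * (g (ev d' x) - Es p (fun z => g (ev d' z)) x) := by
        have i1 : Integrable (fun x => f (ev d x) * Es p (fun z => g (ev d' z)) x) := (hLBM.2.1 1 _ ((hLBM.1 _ _ hfd hEg).2.2)).2.2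
        have i2 : Integrable (fun x => f (ev d x) * (g (ev d' x) - Es p (fun z => g (ev d' z)) x)) := (hLBM.2.1 1 _ ((hLBM.1 _ _ hfd hdiff).2.2)).2.2
        rw [← integral_add i1 i2]
        congr 1
        funext x
        ring
      have hsa : ∫ x, f (ev d x) * Es p (fun z => g (ev d' z)) x = ∫ x, Es p (fun z => f (ev d z)) x * g (ev d' x) :=
        (hLEP.1 p (fun z => f (ev d z)) (fun z => g (ev d' z)) hfd hgd).symm
      rw [hsplit, hsa]
      have t1 := LIP_cs hLCS _ _ hEf' hgd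
      have t2 := LIP_cs hLCS _ _ hfd hdiff
      -- sizes
      have hB' := hB d f s p hd hf hEf hps
      have hA' := hA d' g (r + 1) p (hsz d' hd') hg1 hg hrp
      rw [← ha2] at hB'
      rw [← hb2] at hA'
      have hM2 : ∀ m : ℕ, (s - r - 1) / 2 ≤ m → M ^ 2 ≤ 2 * (2 : ℝ) ^ m := by
        intro m hm
        have h5 : 2 * ((s - r) / 4) ≤ m + 1 := by omega
        calc M ^ 2 = 2 ^ (2 * ((s - r) / 4)) := by rw [hM, ← pow_mul]; congr 1; ring
          _ ≤ 2 ^ (m + 1) := pow_le_pow_right₀ (by norm_num) h5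
          _ = 2 * 2 ^ m := by rw [pow_succ]; ring
      have u1 : √(nsq (Es p (fun z => f (ev d z)))) ≤ 2 * K' * a / M :=
        LIP_sq _ K' a M (2 ^ (s - p)) (integral_nonneg fun x => sq_nonneg _) hK' ha0 hMpos (by positivity) (hM2 _ (by omega)) hB'
      have u2 : √(nsq (fun x => g (ev d' x) - Es p (fun z => g (ev d' z)) x)) ≤ 2 * K * b / M :=
        LIP_sq _ K b M (2 ^ (p - (r + 1))) (integral_nonneg fun x => sq_nonneg _) hK hb0 hMpos (by positivity) (hM2 _ (by omega)) hA'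
      calc _ ≤ |∫ x, Es p (fun z => f (ev d z)) x * g (ev d' x)| + |∫ x, f (ev d x) * (g (ev d' x) - Es p (fun z => g (ev d' z)) x)| := abs_add_le _ _
        _ ≤ √(nsq (Es p (fun z => f (ev d z)))) * √(nsq (fun x => g (ev d' x))) +
            √(nsq (fun x => f (ev d x))) * √(nsq (fun x => g (ev d' x) - Es p (fun z => g (ev d' z)) x)) := add_le_add t1 t2
        _ ≤ (2 * K' * a / M) * (2 * b) + (2 * a) * (2 * K * b / M) := by
            apply add_le_add
            · exact mul_le_mul u1 hgn (Real.sqrt_nonneg _) (by positivity)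
            · exact mul_le_mul hfn u2 (Real.sqrt_nonneg _) (by positivity)
        _ = 4 * (K + K') / M * (a * b) := by ring
  rcases Nat.eq_zero_or_pos q with hq | hq
  · have h1 : ∀ x, Mop q c f x * Mop q c g x = 0 := by
      intro x
      unfold Mop
      rw [hq]
      simp
    rw [integral_congr_ae (Eventually.of_forall h1)]
    simp only [integral_zero, abs_zero]
    positivity
  · have hqp : (0 : ℝ) < q := by exact_mod_cast hq
    have hint : ∀ i j : ℕ, Integrable (fun x => f (ev (c i) x) * g (ev (c j) x)) := fun i j =>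
      (hLBM.2.1 1 _ ((hLBM.1 _ _ (hLBM.2.2.2.2.1 (c i) f hf) (hLBM.2.2.2.2.1 (c j) g hg)).2.2)).2.2
    have hexp : (∫ x, Mop q c f x * Mop q c g x) = (1 / (q : ℝ) ^ 2) * ∑ i ∈ Finset.range q, ∑ j ∈ Finset.range q, ∫ x, f (ev (c i) x) * g (ev (c j) x) := by
      have h1 : ∀ x, Mop q c f x * Mop q c g x = (1 / (q : ℝ) ^ 2) * ∑ i ∈ Finset.range q, ∑ j ∈ Finset.range q, f (ev (c i) x) * g (ev (c j) x) := by
        intro x
        unfold Mop
        rw [← Finset.sum_mul_sum]
        field_simp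
      rw [integral_congr_ae (Eventually.of_forall h1), integral_const_mul]
      congr 1
      rw [integral_finsetSum _ (fun i _ => integrable_finsetSum _ (fun j _ => hint i j))]
      apply Finset.sum_congr rfl
      intro i _
      rw [integral_finsetSum _ (fun j _ => hint i j)]
    rw [hexp, abs_mul, abs_of_pos (by positivity)]
    have hsum : |∑ i ∈ Finset.range q, ∑ j ∈ Finset.range q, ∫ x, f (ev (c i) x) * g (ev (c j) x)| ≤ (q : ℝ) ^ 2 * (4 * (K + K') / M * (a * b)) := by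
      calc _ ≤ ∑ i ∈ Finset.range q, |∑ j ∈ Finset.range q, ∫ x, f (ev (c i) x) * g (ev (c j) x)| := Finset.abs_sum_le_sum_abs _ _
        _ ≤ ∑ i ∈ Finset.range q, ∑ j ∈ Finset.range q, |∫ x, f (ev (c i) x) * g (ev (c j) x)| := Finset.sum_le_sum fun i _ => Finset.abs_sum_le_sum_abs _ _
        _ ≤ ∑ i ∈ Finset.range q, ∑ j ∈ Finset.range q, 4 * (K + K') / M * (a * b) :=
            Finset.sum_le_sum fun i hi => Finset.sum_le_sum fun j hj => pair (c i) (c j) (hc i (Finset.mem_range.1 hi)) (hc j (Finset.mem_range.1 hj))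
        _ = (q : ℝ) ^ 2 * (4 * (K + K') / M * (a * b)) := by
            simp only [Finset.sum_const, Finset.card_range, nsmul_eq_mul]
            ring
    calc _ ≤ (1 / (q : ℝ) ^ 2) * ((q : ℝ) ^ 2 * (4 * (K + K') / M * (a * b))) := mul_le_mul_of_nonneg_left hsum (by positivity)
      _ = 4 * (K + K') / M * (a * b) := by field_simp

end Pool.Agent.helper90.DH
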