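import Pool.Agent.helper5.DH.Spec

/-!
# Project dh: (MP_af9036_an), module TYQ: the typical point
-/

set_option autoImplicit false

open Complex Metric Set Filter Topology MeasureTheory Pool.Agent.helper98.ILF
  Pool.Agent.helper16.Multibrot

open HY (UD T S hd UN RM VV SG Orb fz)

noncomputable section

namespace DH

theorem TYQ_ball {n : ℕ} {c : ℂ} (h : c ∉ closure (hyperbolic n)) :
    ∃ r : ℝ, 0 < r ∧ Disjoint (ball c r) (hyperbolic n) := by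
  rw [Metric.mem_closure_iff] at h
  push Not at h
  obtain ⟨r, hr, h'⟩ := h
  refine ⟨r, hr, Set.disjoint_left.2 fun b hb hb' => ?_⟩
  have := h' b hb'
  rw [mem_ball, dist_comm] at hb
  linarith

/-- the last hypothesis is `UP.NRP` (`Pool/Agent/helper26/UP/All.lean`). -/
theorem TYQ (hBRG : BR.BRG_stmt) (hLAM : NZ.LAM_stmt) (hDEN : EX.DEN_stmt)
    (hNRP : ∀ (n : ℕ) (c : ℂ), 2 ≤ n → c ∈ multibrot n → c ∉ closure (hyperbolic n) →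
      (0 : ℂ) ∈ closure (UP.Orb n c)) : TYQ_stmt := by
  intro n hn c hc hcl
  obtain ⟨r, hr, hd⟩ := TYQ_ball hcl
  obtain ⟨hAR, hint, -, v, m, μ, -, -, -, -, -, -, -, -, -, -, -, hμ, -⟩ := hBRG n c r hn hr hc hd
  obtain ⟨hm, h1, hpos, hJ, hinv⟩ := hμ
  have hbd : ∀ z, ‖μ z‖ ≤ 1 := by
    intro z
    by_cases hz : μ z = 0
    · rw [hz, norm_zero]
      exact zero_le_one
    · exact (h1 z hz).le
  have hrec : ∀ᵐ x : ℂ, x ∈ filled n c → ∀ ε > (0 : ℝ), ∃ k : ℕ, ‖(fz n c)^[k] x‖ < ε := by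
    have h1 : ∀ᵐ x : ℂ, ∀ k : ℕ, x ∉ UP.Lam n c (1 / ((k : ℝ) + 1)) := by
      rw [ae_all_iff]
      intro k
      exact measure_eq_zero_iff_ae_notMem.1 (hLAM n hn c hc hcl _ (by positivity))
    filter_upwards [h1] with x hx hxf ε hε
    obtain ⟨m, hm⟩ := exists_nat_one_div_lt hε
    have h2 := hx m
    by_contra hcon
    refine h2 ⟨hxf, fun k => ?_⟩
    by_contra h3
    exact hcon ⟨k, (not_le.1 h3).trans hm⟩
  have hden := hDEN μ hm hbd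
  obtain ⟨x, hx, hxd, hxr⟩ : ∃ x : ℂ, μ x ≠ 0 ∧
      (∀ K ε : ℝ, 0 < ε → ∃ δ > (0 : ℝ), ∀ (p : ℂ) (s : ℝ), 0 < s → s < δ → ‖x - p‖ ≤ K * s →
        ∫ z in ball p s, ‖μ z - μ x‖ ≤ ε * s ^ 2) ∧
      (x ∈ filled n c → ∀ ε > (0 : ℝ), ∃ k : ℕ, ‖(fz n c)^[k] x‖ < ε) := by
    have hall := hden.and hrec
    by_contra hcon
    have hsub : {z | μ z ≠ 0} ⊆ {x | ¬ ((∀ K ε : ℝ, 0 < ε → ∃ δ > (0 : ℝ), ∀ (p : ℂ) (s : ℝ),
        0 < s → s < δ → ‖x - p‖ ≤ K * s → ∫ z in ball p s, ‖μ z - μ x‖ ≤ ε * s ^ 2) ∧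
      (x ∈ filled n c → ∀ ε > (0 : ℝ), ∃ k : ℕ, ‖(fz n c)^[k] x‖ < ε))} := by
      intro x hx hP
      exact hcon ⟨x, hx, hP.1, hP.2⟩
    have h0 : volume {z | μ z ≠ 0} = 0 := measure_mono_null hsub (ae_iff.1 hall)
    rw [h0] at hpos
    exact lt_irrefl _ hpos
  have hxf : x ∈ filled n c :=
    (isCompact_filled n c).isClosed.frontier_subset (juliaSet_subset hn c (hJ hx))
  refine ⟨μ, x, hm, hbd, h1 x hx, hinv, hxd, hxf, hxr hxf, ?_, hint, (hAR c (mem_ball_self hr)).1⟩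
  intro ε hε
  obtain ⟨y, ⟨j, rfl⟩, hy⟩ := Metric.mem_closure_iff.1 (hNRP n c hn hc hcl) ε hε
  refine ⟨j, ?_⟩
  have h2 : (fz n c)^[j] c = GR.Z n c (j + 1) := UP.iter_c n c hn j
  rw [h2]
  rw [dist_comm, dist_zero_right] at hy
  exact hy

end DH
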