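import Pool.Agent.helper58.DH.NLP

/-! Project dh:, part M, LRI: Lipschitz constants, left recursion. -/

set_option autoImplicit false

open Filter Topology MeasureTheory
open scoped commutatorElement

namespace Pool.Agent.helper90.DH

open Pool.Agent.helper64.D2

theorem LRI (hSZC : SZC_stmt) (hNCA : NCA_stmt) (hNLP : NLP_stmt) : LRI_stmt := by
  intro q S R a Λ ha hΛ hRq hR hS hRs
  obtain ⟨-, -, -, -, -, -, hN, -, hN1⟩ := hNCA
  have h0 : 0 ≤ a := (abs_nonneg _).trans (hRs q le_rfl 0)
  have hd : ∀ (g : DD), Sz g a → ∀ x, 99 / 100 ≤ deriv (ev g) x ∧ deriv (ev g) x ≤ 101 / 100 := by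
    intro g hg x
    have h1 := abs_le.1 ((hSZC.2.1 g a hg x).1)
    constructor <;> linarith [h1.1, h1.2]
  have key : ∀ n i : ℕ, i + n = q → ∀ x y : ℝ, |Nn (R i) x - Nn (R i) y| ≤ n * (4 * Λ + 3) * |x - y| := by
    intro n
    induction n with
    | zero =>
      intro i hi x y
      have : i = q := by omega
      rw [this, hRq, (hN1 x).1, (hN1 y).1]
      simp
    | succ n ih =>
      intro i hi x y
      have hiq : i < q := by omega
      have hin := ih (i + 1) (by omega) x y
      obtain ⟨hSi, hSL⟩ := hS i hiq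
      have hRi := hRs (i + 1) (by omega)
      rw [hR i hiq, hN, hN]
      set T := R (i + 1) with hT
      set D := |x - y| with hD
      have hD0 : 0 ≤ D := abs_nonneg _
      have hTx := hd T hRi x
      have hTy := hd T hRi y
      have hTl := NLP_lip T a hRi x y
      -- ev T is 2 Lipschitz
      have hevT : |ev T x - ev T y| ≤ 101 / 100 * D := by
        have h1 : Differentiable ℝ (ev T) := (ev_contDiff T).differentiable (by norm_num)
        have h4 := Convex.norm_image_sub_le_of_norm_deriv_le (f := ev T) (C := 101 / 100) (s := Set.univ) (x := y) (y := x)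
          (fun z _ => h1 z) (fun z _ => by
            have h2 := hd T hRi z
            rw [Real.norm_eq_abs, abs_le]
            constructor <;> linarith [h2.1, h2.2]) convex_univ trivial trivial
        exact h4
      have hNS := hNLP.1 (S i) a Λ hSi (by linarith) hSL (ev T x) (ev T y)
      have hNb : |Nn (S i) (ev T y)| ≤ 2 * a := by
        have h2 := hd (S i) hSi (ev T y)
        unfold Nn
        rw [abs_div, abs_of_pos (show (0 : ℝ) < deriv (ev (S i)) (ev T y) by linarith [h2.1]), div_le_iff₀ (by linarith [h2.1])]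
        have h3 := hSi (ev T y)
        nlinarith [h2.1]
      set A := deriv (ev T) x
      set B := deriv (ev T) y
      set P := Nn (S i) (ev T x)
      set Q := Nn (S i) (ev T y)
      have hPQ : |P - Q| ≤ (2 * Λ + 1) * (101 / 100 * D) := hNS.trans (by gcongr)
      have e : P * A + Nn T x - (Q * B + Nn T y) = ((P - Q) * A + Q * (A - B)) + (Nn T x - Nn T y) := by ring
      rw [e]
      have hA0 : 0 ≤ A := by linarith [hTx.1]
      have h1 : |(P - Q) * A + Q * (A - B)| ≤ (4 * Λ + 3) * D := by
        calc _ ≤ |(P - Q) * A| + |Q * (A - B)| := abs_add_le _ _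
          _ = |P - Q| * A + |Q| * |A - B| := by rw [abs_mul, abs_mul, abs_of_nonneg hA0]
          _ ≤ ((2 * Λ + 1) * (101 / 100 * D)) * (101 / 100) + 2 * a * (a * D) := by
              gcongr
              exact hTx.2
          _ ≤ (4 * Λ + 3) * D := by
              have h5 : a * a ≤ 1 / 10000 := by nlinarith
              have h6 : 2 * a * (a * D) ≤ D := by nlinarith
              have h7 : 0 ≤ Λ * D := mul_nonneg hΛ hD0
              nlinarith
      calc _ ≤ |(P - Q) * A + Q * (A - B)| + |Nn T x - Nn T y| := abs_add_le _ _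
        _ ≤ (4 * Λ + 3) * D + n * (4 * Λ + 3) * D := add_le_add h1 hin
        _ = ((n + 1 : ℕ) : ℝ) * (4 * Λ + 3) * D := by push_cast; ring
  intro i hi
  have h1 := key (q - i) i (by omega)
  have hq : ((q - i : ℕ) : ℝ) ≤ q := by exact_mod_cast Nat.sub_le q i
  have h2 : ∀ x y : ℝ, |Nn (R i) x - Nn (R i) y| ≤ q * (4 * Λ + 3) * |x - y| := fun x y => (h1 x y).trans (by gcongr)
  have h3 := hNLP.2 (R i) a (q * (4 * Λ + 3)) (hRs i hi) (by linarith) h2
  intro x y
  have h4 := h3 x y
  refine h4.trans (le_of_eq ?_)
  ring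

end Pool.Agent.helper90.DH
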