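import Pool.Agent.helper18.DH.SpecM

/-! Project dh:, part M, NLP: Lipschitz constants and `N`. -/

set_option autoImplicit false

open Filter Topology MeasureTheory
open scoped commutatorElement

namespace Pool.Agent.helper90.DH

open Pool.Agent.helper64.D2

theorem NLP_lip (g : DD) (a : ℝ) (h : Sz g a) (x y : ℝ) : |deriv (ev g) x - deriv (ev g) y| ≤ a * |x - y| := by
  have h1 : ContDiff ℝ 1 (deriv (ev g)) := by
    have h2 := ev_contDiff g
    have h3 : ContDiff ℝ (1 + 1) (ev g) := by norm_num; exact h2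
    exact (contDiff_succ_iff_deriv.1 h3).2.2
  have h4 := Convex.norm_image_sub_le_of_norm_deriv_le (f := deriv (ev g)) (C := a) (s := Set.univ) (x := y) (y := x)
    (fun z _ => (h1.differentiable (by norm_num)) z) (fun z _ => h z) convex_univ trivial trivial
  exact h4

theorem NLP (hSZC : SZC_stmt) : NLP_stmt := by
  obtain ⟨-, hS2, -, -, -⟩ := hSZC
  have hpos : ∀ (g : DD) (a : ℝ), Sz g a → a ≤ 1 / 8 → 0 ≤ a ∧ ∀ x, 7 / 8 ≤ deriv (ev g) x ∧ deriv (ev g) x ≤ 9 / 8 := by
    intro g a h ha
    have h0 : 0 ≤ a := (abs_nonneg _).trans (h 0)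
    refine ⟨h0, fun x => ?_⟩
    have h1 := abs_le.1 (hS2 g a h x).1
    constructor <;> linarith [h1.1, h1.2]
  constructor
  · intro g a L h ha hL x y
    obtain ⟨h0, hd⟩ := hpos g a h ha
    have hlip := NLP_lip g a h x y
    have hLxy := hL x y
    have hPa := h x
    have hQa := h y
    obtain ⟨hA1, hA2⟩ := hd x
    obtain ⟨hB1, hB2⟩ := hd y
    unfold Nn
    set A := deriv (ev g) x
    set B := deriv (ev g) y
    set P := d2 (ev g) x
    set Q := d2 (ev g) y
    set D := |x - y| with hD
    have hD0 : 0 ≤ D := abs_nonneg _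
    have hApos : 0 < A := by linarith
    have hBpos : 0 < B := by linarith
    have hLD : 0 ≤ L * D := (abs_nonneg _).trans hLxy
    have e : P / A - Q / B = ((P - Q) * B + Q * (B - A)) / (A * B) := by
      field_simp
      ring
    rw [e, abs_div, abs_of_pos (mul_pos hApos hBpos), div_le_iff₀ (mul_pos hApos hBpos)]
    have h1 : |(P - Q) * B + Q * (B - A)| ≤ L * D * B + a * (a * D) := by
      calc _ ≤ |(P - Q) * B| + |Q * (B - A)| := abs_add_le _ _
        _ = |P - Q| * B + |Q| * |A - B| := by rw [abs_mul, abs_mul, abs_of_pos hBpos, abs_sub_comm B A]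
        _ ≤ L * D * B + a * (a * D) := by gcongr
    refine h1.trans ?_
    have h2 : L * D * B ≤ 2 * (L * D) * (A * B) := by
      have : B ≤ 2 * (A * B) := by nlinarith
      nlinarith
    have h3 : a * (a * D) ≤ D * (A * B) := by
      have h4 : a * a ≤ 1 / 64 := by nlinarith
      have h5 : 49 / 64 ≤ A * B := by nlinarith
      nlinarith
    nlinarith
  · intro g a L h ha hL x y
    obtain ⟨h0, hd⟩ := hpos g a h ha
    have hlip := NLP_lip g a h x y
    have hLxy := hL x y
    obtain ⟨hA1, hA2⟩ := hd x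
    obtain ⟨hB1, hB2⟩ := hd y
    have hxP : d2 (ev g) x = Nn g x * deriv (ev g) x := by
      unfold Nn
      rw [div_mul_cancel₀]
      linarith
    have hyP : d2 (ev g) y = Nn g y * deriv (ev g) y := by
      unfold Nn
      rw [div_mul_cancel₀]
      linarith
    have hNy : |Nn g y| ≤ 1 := by
      unfold Nn
      rw [abs_div, abs_of_pos (show (0 : ℝ) < deriv (ev g) y by linarith), div_le_one (by linarith)]
      exact (h y).trans (by linarith)
    rw [hxP, hyP]
    set A := deriv (ev g) x
    set B := deriv (ev g) y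
    set D := |x - y| with hD
    have hD0 : 0 ≤ D := abs_nonneg _
    have hLD : 0 ≤ L * D := (abs_nonneg _).trans hLxy
    have e : Nn g x * A - Nn g y * B = (Nn g x - Nn g y) * A + Nn g y * (A - B) := by ring
    rw [e]
    have hA0 : 0 ≤ A := by linarith
    calc _ ≤ |(Nn g x - Nn g y) * A| + |Nn g y * (A - B)| := abs_add_le _ _
      _ = |Nn g x - Nn g y| * A + |Nn g y| * |A - B| := by rw [abs_mul, abs_mul, abs_of_nonneg hA0]
      _ ≤ L * D * 2 + 1 * (a * D) := by gcongr; linarith
      _ ≤ (2 * L + 1) * D := by nlinarith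

end Pool.Agent.helper90.DH
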