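import Pool.Agent.helper57.DH.SpecL

/-! Project dh:, part L, FGP: the full gap. -/

set_option autoImplicit false

open Filter Topology MeasureTheory
open scoped commutatorElement

namespace Pool.Agent.helper90.DH

open Pool.Agent.helper64.D2

theorem FGP (hFGA : FGA_stmt) : FGP_stmt := by
  obtain ⟨K, hK, h⟩ := hFGA
  refine ⟨K, hK, ?_⟩
  intro lam q c s0 N hl0 hl1 _ hs0 hNI hG f N' hN' hf hS hE
  exact h lam q c s0 N hl0 hl1 hs0 (fun i hi => (hNI i hi).1) hG f N' hN' hf hS hE

end Pool.Agent.helper90.DH
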